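import Mathlib
import Pool.Agent.H104R3.EG.Gen
import Pool.Agent.H630R3.EG.StrG

set_option autoImplicit false

/-!
# Graphs with prescribed automorphism group and `O(|G|)` edges

There is an absolute constant `c` such that, for every `s`, every finite group `G` such that every
nonabelian simple section `A / B` of `G` (`B` normal in `A`, `A` a subgroup of `G`) can be generated
by `s` elements is isomorphic to the automorphism group of a finite simple graph with at most
`c (s + 1) |G|` edges. For solvable groups the condition holds with `s = 0`.
-/

namespace Pool.Agent.Results.MP_585e73_co.LinearEdges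

/-- Finite groups whose nonabelian simple sections are `s`-generated are automorphism groups of
graphs with at most `c (s + 1) |G|` edges. -/
theorem result : ∃ c : ℕ, ∀ (s : ℕ) (G : Type) [Group G] [Finite G],
    (∀ (A : Subgroup G) (B : Subgroup A) [B.Normal], IsSimpleGroup (A ⧸ B) →
      (∃ x y : A ⧸ B, x * y ≠ y * x) →
      ∃ x : Fin s → A ⧸ B, Subgroup.closure (Set.range x) = ⊤) →
    ∃ (V : Type) (_ : Finite V) (X : SimpleGraph V),
      Nonempty ((X ≃g X) ≃* G) ∧ Nat.card X.edgeSet ≤ c * (s + 1) * Nat.card G := by
  obtain ⟨c, -, h⟩ := Pool.Agent.H104R3.EG.main Pool.Agent.H630R3.EG.taskStrG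
  exact ⟨c, h⟩

end Pool.Agent.Results.MP_585e73_co.LinearEdges
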